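import Pool.Agent.Helper41.LD5.Defs

/-!
# Project LD5, block FPA: the functions `fp`, `pwf`
-/

set_option autoImplicit false

namespace Pool.Agent.Helper68.LD5

open Set MeasureTheory Filter Topology
open Pool.Agent.Helper41.LD (av var haar DiscLe Dioph Kk)
open Pool.Agent.Helper41.LD2 (EqA)
open Pool.Agent.Helper41.LD3 (Cst Us tm fr lamG)
open Pool.Agent.Helper41.LD4
open Pool.Agent.Helper41.LD5

section

variable {A₀ : ℝ} {P Q m m' e : ℕ} {x y a ℓ : ℝ}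

theorem fp_pos (hA : 0 < A₀) (hP : 1 ≤ P) (hm : 1 ≤ m) (hx : 0 < x) : 0 < fp A₀ P m x := by
  unfold fp
  have h1 : (0 : ℝ) < P := by exact_mod_cast hP
  have h2 : (0 : ℝ) < m := by exact_mod_cast hm
  have h3 : 0 < x ^ ((m : ℝ) / P - 1) := Real.rpow_pos_of_pos hx _
  positivity

theorem fp_nonneg (hA : 0 < A₀) (hx : 0 < x) : 0 ≤ fp A₀ P m x := by
  unfold fp
  have h3 : 0 < x ^ ((m : ℝ) / P - 1) := Real.rpow_pos_of_pos hx _
  positivity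

theorem fp_mono (hA : 0 < A₀) (hP : 1 ≤ P) (hm : P ≤ m) (hx : 0 < x) (hxy : x ≤ y) : fp A₀ P m x ≤ fp A₀ P m y := by
  unfold fp
  have h1 : (0 : ℝ) < P := by exact_mod_cast hP
  have h2 : (1 : ℝ) ≤ (m : ℝ) / P := by
    rw [le_div_iff₀ h1, one_mul]
    exact_mod_cast hm
  exact mul_le_mul_of_nonneg_left (Real.rpow_le_rpow hx.le hxy (by linarith)) (by positivity)

/-- growth in `m` -/
theorem fp_step (hA : 0 < A₀) (hP : 1 ≤ P) (h1 : 1 ≤ y) (hyx : y ≤ x) (hmm : m ≤ m') :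
    fp A₀ P m x * (y ^ (1 / (P : ℝ))) ^ (m' - m) ≤ fp A₀ P m' x := by
  unfold fp
  have hP0 : (0 : ℝ) < P := by exact_mod_cast hP
  have hx : 0 < x := by linarith
  have h2 : (m : ℝ) ≤ m' := by exact_mod_cast hmm
  have h3 : (y ^ (1 / (P : ℝ))) ^ (m' - m) ≤ x ^ (((m' : ℝ) - m) / P) := by
    rw [← Real.rpow_natCast, ← Real.rpow_mul (by linarith), Nat.cast_sub hmm]
    have h4 : 1 / (P : ℝ) * ((m' : ℝ) - m) = ((m' : ℝ) - m) / P := by ring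
    rw [h4]
    exact Real.rpow_le_rpow (by linarith) hyx (div_nonneg (by linarith) hP0.le)
  have h5 : x ^ ((m' : ℝ) / P - 1) = x ^ ((m : ℝ) / P - 1) * x ^ (((m' : ℝ) - m) / P) := by
    rw [← Real.rpow_add hx]
    congr 1
    ring
  have h6 : 0 < x ^ ((m : ℝ) / P - 1) := Real.rpow_pos_of_pos hx _
  have h7 : 0 < x ^ (((m' : ℝ) - m) / P) := Real.rpow_pos_of_pos hx _
  rw [h5]
  calc A₀ * ((m : ℝ) / P) * x ^ ((m : ℝ) / P - 1) * (y ^ (1 / (P : ℝ))) ^ (m' - m)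
      ≤ A₀ * ((m : ℝ) / P) * x ^ ((m : ℝ) / P - 1) * x ^ (((m' : ℝ) - m) / P) :=
        mul_le_mul_of_nonneg_left h3 (by positivity)
    _ = A₀ * ((m : ℝ) / P) * (x ^ ((m : ℝ) / P - 1) * x ^ (((m' : ℝ) - m) / P)) := by ring
    _ ≤ A₀ * ((m' : ℝ) / P) * (x ^ ((m : ℝ) / P - 1) * x ^ (((m' : ℝ) - m) / P)) := by
        apply mul_le_mul_of_nonneg_right _ (by positivity)
        apply mul_le_mul_of_nonneg_left _ hA.le
        exact div_le_div_of_nonneg_right h2 hP0.le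

theorem pwf_deriv (cp : ℝ → ℝ) (hx : 0 < x) : HasDerivAt (pwf A₀ cp P m) (fp A₀ P m x) x := by
  unfold fp
  have h1 := ((Real.hasDerivAt_rpow_const (x := x) (p := (m : ℝ) / P) (Or.inl hx.ne')).const_mul A₀).add_const (cp ((m : ℝ) / P))
  have h2 : A₀ * ((m : ℝ) / P * x ^ ((m : ℝ) / P - 1)) = A₀ * ((m : ℝ) / P) * x ^ ((m : ℝ) / P - 1) := by ring
  rw [← h2]
  exact h1

theorem pwf_meas (A₀ : ℝ) (cp : ℝ → ℝ) (P m : ℕ) : Measurable (pwf A₀ cp P m) := by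
  unfold pwf
  exact ((measurable_id.pow_const _).const_mul _).add_const _

/-- small changes of the point: `(x / a) ^ (m / P - 1) ≤ exp (m δ)` -/
theorem fp_near (hA : 0 < A₀) (hP : 1 ≤ P) (hm : P ≤ m) {K : ℕ} (hm2 : m ≤ 2 ^ (3 * K)) {δ : ℝ} (ha : 1 ≤ a) (hax : a ≤ x) (hxa : x ≤ a + δ)
    (hδ : δ * 2 ^ (4 * K + 1) ≤ 1) : fp A₀ P m x ≤ fp A₀ P m a * (1 + 2 ^ (3 * K + 1) * δ) := by
  have hP0 : (0 : ℝ) < P := by exact_mod_cast hP
  have hP1 : (1 : ℝ) ≤ P := by exact_mod_cast hP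
  have ha0 : 0 < a := by linarith
  have hx0 : 0 < x := by linarith
  have hδ0 : 0 ≤ δ := by linarith
  set t : ℝ := (m : ℝ) / P - 1 with ht
  have ht0 : 0 ≤ t := by
    have : (1 : ℝ) ≤ (m : ℝ) / P := by
      rw [le_div_iff₀ hP0, one_mul]
      exact_mod_cast hm
    linarith
  have hm3 : (m : ℝ) ≤ 2 ^ (3 * K) := by exact_mod_cast hm2
  have ht1 : t ≤ 2 ^ (3 * K) := by
    have : (m : ℝ) / P ≤ m := div_le_self (by positivity) hP1
    linarith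
  have h1 : x ^ t = a ^ t * (x / a) ^ t := by
    rw [← Real.mul_rpow ha0.le (by positivity), mul_div_cancel₀ _ ha0.ne']
  have h2 : x / a ≤ Real.exp δ := by
    have h3 : x / a ≤ 1 + δ := by
      rw [div_le_iff₀ ha0]
      nlinarith
    linarith [Real.add_one_le_exp δ]
  have h3 : (x / a) ^ t ≤ 1 + 2 ^ (3 * K + 1) * δ := by
    have h4 : (x / a) ^ t ≤ Real.exp (δ * t) := by
      rw [Real.exp_mul]
      exact Real.rpow_le_rpow (by positivity) h2 ht0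
    have h5 : δ * t ≤ δ * 2 ^ (3 * K) := mul_le_mul_of_nonneg_left ht1 hδ0
    have h6 : δ * 2 ^ (3 * K) ≤ 1 := by
      refine (mul_le_mul_of_nonneg_left (pow_le_pow_right₀ (by norm_num) (by omega)) hδ0).trans hδ
    have h7 : 0 ≤ δ * t := mul_nonneg hδ0 ht0
    have h8 : Real.exp (δ * t) ≤ 1 + 2 * (δ * t) := by
      have h9 : |Real.exp (δ * t) - 1| ≤ 2 * |δ * t| := Real.abs_exp_sub_one_le (by rw [abs_of_nonneg h7]; linarith)
      rw [abs_of_nonneg h7] at h9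
      linarith [le_abs_self (Real.exp (δ * t) - 1)]
    have h10 : 2 * (δ * t) ≤ 2 ^ (3 * K + 1) * δ := by
      rw [pow_succ]
      linarith
    linarith
  unfold fp
  rw [← ht, h1]
  have h4 : 0 < a ^ t := Real.rpow_pos_of_pos ha0 _
  calc A₀ * ((m : ℝ) / P) * (a ^ t * (x / a) ^ t) = A₀ * ((m : ℝ) / P) * a ^ t * (x / a) ^ t := by ring
    _ ≤ A₀ * ((m : ℝ) / P) * a ^ t * (1 + 2 ^ (3 * K + 1) * δ) := mul_le_mul_of_nonneg_left h3 (by positivity)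

/-- quotients -/
theorem fp_div (hA : 0 < A₀) (hP : 1 ≤ P) (hm : 1 ≤ m) (hx : 0 < x) :
    fp A₀ P m' x / fp A₀ P m x = ((m' : ℝ) / m) * x ^ (((m' : ℝ) - m) / P) := by
  unfold fp
  have hP0 : (0 : ℝ) < P := by exact_mod_cast hP
  have hm0 : (0 : ℝ) < m := by exact_mod_cast hm
  have h5 : x ^ ((m' : ℝ) / P - 1) = x ^ ((m : ℝ) / P - 1) * x ^ (((m' : ℝ) - m) / P) := by
    rw [← Real.rpow_add hx]
    congr 1
    ring
  have h6 : 0 < x ^ ((m : ℝ) / P - 1) := Real.rpow_pos_of_pos hx _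
  rw [h5]
  field_simp

end

section

variable {F : Fam} {κ D K : ℕ} {a₀ ℓst a ℓ x : ℝ} {m e : ℕ}

/-- one step of a class -/
theorem fp_add_le (hF : F.Ok) (hm : F.P ≤ m) (h1 : F.x₁ ≤ x) (h2 : x ≤ F.x₂) : fp F.A₀ F.P (m + F.Q) x ≤ 2 ^ F.DF * fp F.A₀ F.P m x := by
  have hx1 := hF.h1
  have hP := hF.hP
  have hP0 : (0 : ℝ) < F.P := by exact_mod_cast hP
  have hx0 : 0 < x := by linarith
  have hm1 : 1 ≤ m := hP.trans hm
  have hm0 : (0 : ℝ) < m := by exact_mod_cast hm1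
  have hpos := fp_pos hF.hA hP hm1 hx0
  rw [← div_le_iff₀ hpos, fp_div hF.hA hP hm1 hx0]
  refine le_trans ?_ hF.hDF
  have h3 : ((m + F.Q : ℕ) : ℝ) / m ≤ 1 + (F.Q : ℝ) / F.P := by
    push_cast
    rw [add_div, div_self hm0.ne']
    have : (F.Q : ℝ) / m ≤ F.Q / F.P := div_le_div_of_nonneg_left (by positivity) hP0 (by exact_mod_cast hm)
    linarith
  have h4 : (((m + F.Q : ℕ) : ℝ) - m) / F.P = (F.Q : ℝ) / F.P := by
    push_cast
    ring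
  rw [h4]
  have h5 : x ^ ((F.Q : ℝ) / F.P) ≤ F.x₂ ^ ((F.Q : ℝ) / F.P) := Real.rpow_le_rpow hx0.le h2 (by positivity)
  exact mul_le_mul h3 h5 (Real.rpow_nonneg hx0.le _) (by positivity)

/-- nearly linear on the windows of a stage: `|V x - V a| ≤ V a * 2 ^ (3 K + 1) ℓ`, `ℓ ≤ ℓst ≤ 2 ^ (-K K ^ (2 κ + 1))` -/
theorem pwf_lin (hF : F.Ok) (hκ : 1 ≤ κ) (hK : 100 ≤ K) (hm : F.P ≤ m) (hm2 : m ≤ 2 ^ (3 * K)) (ha : F.x₁ ≤ a) (hℓ : 0 < ℓ)
    (hsm : ℓ * 2 ^ (K ^ (2 * κ + 2)) ≤ 1) (hV : fp F.A₀ F.P m a * ℓ ≤ 2 ^ (K ^ (2 * κ + 1) + 30 * K)) :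
    ∀ x ∈ Icc a (a + ℓ), |pwf F.A₀ F.cp F.P m x - (fp F.A₀ F.P m a * x + (pwf F.A₀ F.cp F.P m a - fp F.A₀ F.P m a * a))| ≤ (1 / 2) ^ (16 * K) := by
  intro x hx
  have hx1 := hF.h1
  have hP := hF.hP
  have ha0 : 0 < a := by linarith
  set V : ℝ := fp F.A₀ F.P m a with hVdef
  have hV0 : 0 ≤ V := fp_nonneg hF.hA ha0
  have hK2 : 4 * K + 1 ≤ K ^ (2 * κ + 2) := by
    calc 4 * K + 1 ≤ K * K := by nlinarith
      _ = K ^ 2 := by ring
      _ ≤ K ^ (2 * κ + 2) := Nat.pow_le_pow_right (by omega) (by omega)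
  have hsm2 : ℓ * 2 ^ (4 * K + 1) ≤ 1 :=
    (mul_le_mul_of_nonneg_left (pow_le_pow_right₀ (by norm_num) hK2) hℓ.le).trans hsm
  -- the derivative of the difference
  have hder : ∀ t ∈ Icc a (a + ℓ), HasDerivWithinAt (fun y => pwf F.A₀ F.cp F.P m y - V * y) (fp F.A₀ F.P m t - V) (Icc a (a + ℓ)) t := by
    intro t ht
    have ht0 : 0 < t := by linarith [ht.1]
    have h1 := (pwf_deriv (A₀ := F.A₀) (P := F.P) (m := m) F.cp ht0).sub ((hasDerivAt_id t).const_mul V)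
    simp only [mul_one] at h1
    exact h1.hasDerivWithinAt
  have hbd : ∀ t ∈ Icc a (a + ℓ), ‖fp F.A₀ F.P m t - V‖ ≤ V * (2 ^ (3 * K + 1) * ℓ) := by
    intro t ht
    have h1 := fp_near (A₀ := F.A₀) hF.hA hP hm hm2 (δ := ℓ) (by linarith) ht.1 ht.2 hsm2
    have h2 := fp_mono (A₀ := F.A₀) hF.hA hP hm ha0 ht.1
    rw [Real.norm_eq_abs, abs_of_nonneg (by rw [hVdef]; linarith)]
    rw [← hVdef] at h1
    linarith
  have hmain := (convex_Icc a (a + ℓ)).norm_image_sub_le_of_norm_hasDerivWithin_le hder hbd (left_mem_Icc.2 (by linarith)) hx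
  rw [Real.norm_eq_abs, Real.norm_eq_abs, abs_of_nonneg (by linarith [hx.1] : 0 ≤ x - a)] at hmain
  have heq : pwf F.A₀ F.cp F.P m x - (V * x + (pwf F.A₀ F.cp F.P m a - V * a)) =
      pwf F.A₀ F.cp F.P m x - V * x - (pwf F.A₀ F.cp F.P m a - V * a) := by ring
  rw [heq]
  refine hmain.trans ?_
  have h1 : V * (2 ^ (3 * K + 1) * ℓ) * (x - a) ≤ V * (2 ^ (3 * K + 1) * ℓ) * ℓ :=
    mul_le_mul_of_nonneg_left (by linarith [hx.2]) (by positivity)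
  have h2 : V * (2 ^ (3 * K + 1) * ℓ) * ℓ = V * ℓ * (2 ^ (3 * K + 1) * ℓ) := by ring
  have h3 : V * ℓ * (2 ^ (3 * K + 1) * ℓ) ≤ 2 ^ (K ^ (2 * κ + 1) + 30 * K) * (2 ^ (3 * K + 1) * ℓ) :=
    mul_le_mul_of_nonneg_right hV (by positivity)
  have h4 : (K ^ (2 * κ + 1) + 30 * K) + (3 * K + 1) + 16 * K ≤ K ^ (2 * κ + 2) := by
    have h5 : K ^ (2 * κ + 2) = K ^ (2 * κ + 1) * K := by rw [← pow_succ]
    have h6 : K * K ≤ K ^ (2 * κ + 1) := by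
      calc K * K = K ^ 2 := by ring
        _ ≤ K ^ (2 * κ + 1) := Nat.pow_le_pow_right (by omega) (by omega)
    rw [h5]
    nlinarith
  have h5 : (2 : ℝ) ^ (K ^ (2 * κ + 1) + 30 * K) * (2 ^ (3 * K + 1) * ℓ) * 2 ^ (16 * K) ≤ 1 := by
    calc (2 : ℝ) ^ (K ^ (2 * κ + 1) + 30 * K) * (2 ^ (3 * K + 1) * ℓ) * 2 ^ (16 * K)
        = ℓ * 2 ^ ((K ^ (2 * κ + 1) + 30 * K) + (3 * K + 1) + 16 * K) := by
          rw [pow_add (2 : ℝ) (K ^ (2 * κ + 1) + 30 * K + (3 * K + 1)), pow_add (2 : ℝ) (K ^ (2 * κ + 1) + 30 * K)]; ring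
      _ ≤ ℓ * 2 ^ (K ^ (2 * κ + 2)) := mul_le_mul_of_nonneg_left (pow_le_pow_right₀ (by norm_num) h4) hℓ.le
      _ ≤ 1 := hsm
  have h6 : (2 : ℝ) ^ (K ^ (2 * κ + 1) + 30 * K) * (2 ^ (3 * K + 1) * ℓ) ≤ (1 / 2) ^ (16 * K) := by
    rw [one_div, inv_pow]
    rw [← one_div, le_div_iff₀ (by positivity)]
    exact h5
  linarith

end

end Pool.Agent.Helper68.LD5
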