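import Pool.Agent.Helper68.LD5.FPA
import Pool.Agent.Helper94.LD5.COR1
import Pool.Agent.Helper31.LD5.NRE
import Pool.Agent.Helper5.LD5.SQ1

/-!
# Project LD5, block PAIR_PP: two different powers
-/

set_option autoImplicit false

namespace Pool.Agent.Helper68.LD5

open Set MeasureTheory Filter Topology
open Pool.Agent.Helper41.LD (av var haar DiscLe Dioph Kk)
open Pool.Agent.Helper41.LD2 (EqA)
open Pool.Agent.Helper41.LD3 (Cst Us tm fr lamG)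
open Pool.Agent.Helper41.LD4
open Pool.Agent.Helper41.LD5
open Pool.Agent.Helper94.LD5 (corr_far5_of corr_near5)
open Pool.Agent.Helper5.LD5 (cv_int cv_far)


section

variable {F : Fam} {κ D K : ℕ} {a₀ ℓst a ℓ : ℝ} {N₀ N₀' m₁ m₂ : ℕ} {w w' : ℝ} {f f' : ℝ → ℝ}

/-- the power functions are increasing and convex on the window -/
theorem cv_pwf (hF : F.Ok) (ha : F.x₁ ≤ a) {m : ℕ} (hm : F.P ≤ m) :
    Cv (pwf F.A₀ F.cp F.P m) (fp F.A₀ F.P m) a (a + ℓ) := by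
  have h1 := hF.h1
  have hP := hF.hP
  have hm1 : 1 ≤ m := hP.trans hm
  refine ⟨pwf_meas _ _ _ _, fun x hx => pwf_deriv _ ?_, fun x hx => fp_pos hF.hA hP hm1 ?_, fun x hx y _ hxy => fp_mono hF.hA hP hm ?_ hxy⟩
  · linarith [hx.1]
  · linarith [hx.1]
  · linarith [hx.1]

theorem fp_le_of_lt (hF : F.Ok) (ha : F.x₁ ≤ a) {m m' : ℕ} (hm : m ≤ m') : fp F.A₀ F.P m a ≤ fp F.A₀ F.P m' a := by
  have h1 := hF.h1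
  have h := fp_step hF.hA hF.hP hF.h1.le ha hm
  have h2 : (1 : ℝ) ≤ (F.x₁ ^ (1 / (F.P : ℝ))) ^ (m' - m) := by
    apply one_le_pow₀
    exact Real.one_le_rpow h1.le (by positivity)
  have h3 : 0 ≤ fp F.A₀ F.P m a := fp_nonneg hF.hA (by linarith)
  nlinarith

/-- lengths in a stage -/
theorem len_sm (hκ : 1 ≤ κ) (B : F.Big κ D K) (S : F.St κ D K a₀ ℓst) (hℓ : 0 < ℓ) (h1 : a₀ ≤ a) (h2 : a + ℓ ≤ a₀ + ℓst) :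
    ℓ * 2 ^ (K ^ (2 * κ + 2)) ≤ 1 ∧ ℓ * 2 ^ (4 * K + 1) ≤ 1 := by
  have h3 : ℓ ≤ ℓst := by linarith
  have h4 : ℓ * 2 ^ (K ^ (2 * κ + 2)) ≤ 1 := (mul_le_mul_of_nonneg_right h3 (by positivity)).trans S.sm
  refine ⟨h4, ?_⟩
  have hK := B.hK
  have h5 : 4 * K + 1 ≤ K ^ (2 * κ + 2) := by
    calc 4 * K + 1 ≤ K * K := by nlinarith
      _ = K ^ 2 := by ring
      _ ≤ K ^ (2 * κ + 2) := Nat.pow_le_pow_right (by omega) (by omega)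
  calc ℓ * 2 ^ (4 * K + 1) ≤ ℓ * 2 ^ (K ^ (2 * κ + 2)) :=
        mul_le_mul_of_nonneg_left (pow_le_pow_right₀ (by norm_num) h5) hℓ.le
    _ ≤ 1 := h4

theorem fp_two (hF : F.Ok) (hκ : 1 ≤ κ) (B : F.Big κ D K) (S : F.St κ D K a₀ ℓst) (hℓ : 0 < ℓ) (h1 : a₀ ≤ a) (h2 : a + ℓ ≤ a₀ + ℓst)
    {m : ℕ} (hm : F.P ≤ m) (hm2 : m ≤ 2 ^ (3 * K)) : fp F.A₀ F.P m (a + ℓ) ≤ 2 * fp F.A₀ F.P m a := by
  have hx := hF.h1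
  have ha : F.x₁ ≤ a := S.lo.trans h1
  have hsm := (len_sm hκ B S hℓ h1 h2).2
  have h3 := fp_near (A₀ := F.A₀) (P := F.P) (m := m) (x := a + ℓ) (a := a) hF.hA hF.hP hm hm2 (δ := ℓ) (by linarith) (by linarith) le_rfl hsm
  have h4 : (2 : ℝ) ^ (3 * K + 1) * ℓ ≤ 1 := by
    calc (2 : ℝ) ^ (3 * K + 1) * ℓ ≤ 2 ^ (4 * K + 1) * ℓ :=
          mul_le_mul_of_nonneg_right (pow_le_pow_right₀ (by norm_num) (by omega)) hℓ.le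
      _ = ℓ * 2 ^ (4 * K + 1) := by ring
      _ ≤ 1 := hsm
  have h5 : 0 ≤ fp F.A₀ F.P m a := fp_nonneg hF.hA (by linarith)
  nlinarith

/-- linearisation on the window, `V ℓ ≤ 2 ^ (K ^ (2 κ + 1) + 1)` -/
theorem pp_lin (hF : F.Ok) (hκ : 1 ≤ κ) (B : F.Big κ D K) (S : F.St κ D K a₀ ℓst) (hℓ : 0 < ℓ) (h1 : a₀ ≤ a) (h2 : a + ℓ ≤ a₀ + ℓst)
    {m : ℕ} (hm : F.P ≤ m) (hm2 : m ≤ 2 ^ (3 * K)) (hV : fp F.A₀ F.P m a * ℓ ≤ 2 * 2 ^ (K ^ (2 * κ + 1))) :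
    ∀ x ∈ Icc a (a + ℓ), |pwf F.A₀ F.cp F.P m x - (fp F.A₀ F.P m a * x + (pwf F.A₀ F.cp F.P m a - fp F.A₀ F.P m a * a))| ≤ (1 / 2) ^ (16 * K) := by
  have hK := B.hK
  refine pwf_lin hF hκ hK hm hm2 (S.lo.trans h1) hℓ (len_sm hκ B S hℓ h1 h2).1 (hV.trans ?_)
  calc (2 : ℝ) * 2 ^ (K ^ (2 * κ + 1)) = 2 ^ (K ^ (2 * κ + 1) + 1) := by rw [pow_succ (2 : ℝ) (K ^ (2 * κ + 1))]; ring
    _ ≤ 2 ^ (K ^ (2 * κ + 1) + 30 * K) := pow_le_pow_right₀ (by norm_num) (by omega)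

/-- the slower power `m`, the faster one `m'`; one of them is the test -/
theorem pp_core (hF : F.Ok) (hκ : 1 ≤ κ) (B : F.Big κ D K) (S : F.St κ D K a₀ ℓst) (hℓ : 0 < ℓ) (h1 : a₀ ≤ a) (h2 : a + ℓ ≤ a₀ + ℓst)
    {Q₀ : ℕ} (hQ : 2 ^ ((D + 40) * K) ≤ Q₀)
    (hf : Fn N₀ m₁ w f) (hf' : Fn N₀' m₂ w' f') (hm₁ : m₁ ≤ F.m) (hm₂ : m₂ ≤ F.m) (hw'0 : 0 ≤ w') (hw' : w' ≤ F.m)
    (hN : 1 ≤ N₀) (hN' : 1 ≤ N₀') (hN2 : N₀ ≤ F.m * 2 ^ K) (hN2' : N₀' ≤ F.m * 2 ^ K) {m m' : ℕ} (hm : 2 * F.P ≤ m) (hlt : m < m')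
    (hm2' : m' ≤ 2 ^ (3 * K))
    (hT : ((Q₀ : ℝ) + 1) * 2 ^ (24 * K) ≤ fp F.A₀ F.P m' a * ℓ)
    (hnear : (1 / 2) ^ (12 * K) * fp F.A₀ F.P m' a < fp F.A₀ F.P m a → fp F.A₀ F.P m' a * ℓ ≤ 2 * 2 ^ (K ^ (2 * κ + 1)) ∧
      ((Q₀ : ℝ) + 1) * 2 ^ (12 * K) ≤ fp F.A₀ F.P m a * ℓ) :
    |av (fun x => f (pwf F.A₀ F.cp F.P m x) * f' (pwf F.A₀ F.cp F.P m' x)) a ℓ| ≤ 6 * (F.m : ℝ) ^ 2 * (1 / 2) ^ (12 * K) := by
  have hx := hF.h1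
  have hP := hF.hP
  have ha : F.x₁ ≤ a := S.lo.trans h1
  have ha0 : 0 < a := by linarith
  have hmP : F.P ≤ m := by omega
  have hmP' : F.P ≤ m' := by omega
  have hm1 : 1 ≤ m := by omega
  have hm12 := hF.m12
  have hK := B.hK
  have hVm : 0 < fp F.A₀ F.P m a := fp_pos hF.hA hP hm1 ha0
  have hVm' : 0 < fp F.A₀ F.P m' a := fp_pos hF.hA hP (by omega) ha0
  have hVle : fp F.A₀ F.P m a ≤ fp F.A₀ F.P m' a := fp_le_of_lt hF ha hlt.le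
  rcases le_or_gt (fp F.A₀ F.P m a) ((1 / 2) ^ (12 * K) * fp F.A₀ F.P m' a) with hfar | hn
  · refine corr_far5_of cv_int cv_far (by omega) hf hf' hm₁ hw'0 hw' (cv_pwf hF ha hmP) (cv_pwf hF ha hmP') hℓ
      (fp_two hF hκ B S hℓ h1 h2 hmP (by omega)) hfar (le_trans ?_ hT)
    have h3 : (1 : ℝ) ≤ (Q₀ : ℝ) + 1 := by
      have : (0 : ℝ) ≤ Q₀ := by positivity
      linarith
    calc (2 : ℝ) ^ (12 * K) ≤ 2 ^ (24 * K) := pow_le_pow_right₀ (by norm_num) (by omega)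
      _ = 1 * 2 ^ (24 * K) := (one_mul _).symm
      _ ≤ ((Q₀ : ℝ) + 1) * 2 ^ (24 * K) := mul_le_mul_of_nonneg_right h3 (by positivity)
  · obtain ⟨h3, h4⟩ := hnear hn
    have hquot : fp F.A₀ F.P m' a / fp F.A₀ F.P m a ≤ 2 ^ (12 * K + 2) := by
      rw [div_le_iff₀ hVm]
      have h5 : fp F.A₀ F.P m' a = 2 ^ (12 * K) * ((1 / 2) ^ (12 * K) * fp F.A₀ F.P m' a) := by
        rw [← mul_assoc, ← mul_pow]
        norm_num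
      calc fp F.A₀ F.P m' a = 2 ^ (12 * K) * ((1 / 2) ^ (12 * K) * fp F.A₀ F.P m' a) := h5
        _ ≤ 2 ^ (12 * K) * fp F.A₀ F.P m a := mul_le_mul_of_nonneg_left hn.le (by positivity)
        _ ≤ 2 ^ (12 * K + 2) * fp F.A₀ F.P m a :=
          mul_le_mul_of_nonneg_right (pow_le_pow_right₀ (by norm_num) (by omega)) hVm.le
    have hnr := (S.nr a ⟨h1, by linarith⟩).1 m m' hm1 hlt hm2' hquot
    have hE : EqA (fp F.A₀ F.P m' a / fp F.A₀ F.P m a) Q₀ ((1 / 2) ^ (12 * K)) := NRa_EqA (by omega) hnr hQ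
    exact corr_near5 hm12 hf hf' hm₂ hN hN' hN2 hN2' (by positivity) le_rfl hVm hVle hℓ hE h4 (pwf_meas _ _ _ _) (pwf_meas _ _ _ _)
      (pp_lin hF hκ B S hℓ h1 h2 hmP (by omega) ((mul_le_mul_of_nonneg_right hVle hℓ.le).trans h3))
      (pp_lin hF hκ B S hℓ h1 h2 hmP' hm2' h3)

/-- PAIR_PP: two different powers; `m'` is the test -/
theorem pair_pp (hF : F.Ok) (hκ : 1 ≤ κ) (B : F.Big κ D K) (S : F.St κ D K a₀ ℓst) (hℓ : 0 < ℓ) (h1 : a₀ ≤ a) (h2 : a + ℓ ≤ a₀ + ℓst)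
    {Q₀ : ℕ} (hQ : 2 ^ ((D + 40) * K) ≤ Q₀)
    (hf : Fn N₀ m₁ w f) (hf' : Fn N₀' m₂ w' f') (hm₁ : m₁ ≤ F.m) (hm₂ : m₂ ≤ F.m) (hw0 : 0 ≤ w) (hw : w ≤ F.m) (hw'0 : 0 ≤ w') (hw' : w' ≤ F.m)
    (hN : 1 ≤ N₀) (hN' : 1 ≤ N₀') (hN2 : N₀ ≤ F.m * 2 ^ K) (hN2' : N₀' ≤ F.m * 2 ^ K) {m m' : ℕ} (hm : 2 * F.P ≤ m) (hm2 : m ≤ 2 ^ (3 * K))
    (hm' : 2 * F.P ≤ m') (hm2' : m' ≤ 2 ^ (3 * K)) (hne : m ≠ m')
    (htest : ((Q₀ : ℝ) + 1) * 2 ^ (24 * K) ≤ fp F.A₀ F.P m' a * ℓ) (htest2 : fp F.A₀ F.P m' a * ℓ ≤ 2 * (1 / 2) ^ (12 * K) * 2 ^ (K ^ (2 * κ + 1))) :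
    |av (fun x => f (pwf F.A₀ F.cp F.P m x) * f' (pwf F.A₀ F.cp F.P m' x)) a ℓ| ≤ 6 * (F.m : ℝ) ^ 2 * (1 / 2) ^ (12 * K) := by
  have hx := hF.h1
  have ha : F.x₁ ≤ a := S.lo.trans h1
  have hpow : (1 / 2 : ℝ) ^ (12 * K) * 2 ^ (24 * K) = 2 ^ (12 * K) := by
    rw [show 24 * K = 12 * K + 12 * K by ring, pow_add (2 : ℝ), ← mul_assoc, ← mul_pow]
    norm_num
  have hW1 : (1 / 2 : ℝ) ^ (12 * K) ≤ 1 := pow_le_one₀ (by norm_num) (by norm_num)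
  have hbig : (0 : ℝ) < 2 ^ (K ^ (2 * κ + 1)) := by positivity
  have hup : fp F.A₀ F.P m' a * ℓ ≤ 2 * 2 ^ (K ^ (2 * κ + 1)) := by
    refine htest2.trans ?_
    nlinarith
  have hQ1 : (0 : ℝ) < (Q₀ : ℝ) + 1 := by positivity
  rcases lt_or_gt_of_ne hne with hlt | hlt
  · refine pp_core hF hκ B S hℓ h1 h2 hQ hf hf' hm₁ hm₂ hw'0 hw' hN hN' hN2 hN2' hm hlt hm2' htest fun hn => ⟨hup, ?_⟩
    calc ((Q₀ : ℝ) + 1) * 2 ^ (12 * K) = (1 / 2) ^ (12 * K) * (((Q₀ : ℝ) + 1) * 2 ^ (24 * K)) := by rw [← hpow]; ring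
      _ ≤ (1 / 2) ^ (12 * K) * (fp F.A₀ F.P m' a * ℓ) := mul_le_mul_of_nonneg_left htest (by positivity)
      _ = (1 / 2) ^ (12 * K) * fp F.A₀ F.P m' a * ℓ := by ring
      _ ≤ fp F.A₀ F.P m a * ℓ := mul_le_mul_of_nonneg_right hn.le hℓ.le
  · have hVle : fp F.A₀ F.P m' a ≤ fp F.A₀ F.P m a := fp_le_of_lt hF ha hlt.le
    have h := pp_core hF hκ B S hℓ h1 h2 hQ hf' hf hm₂ hm₁ hw0 hw hN' hN hN2' hN2 hm' hlt hm2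
      (htest.trans (mul_le_mul_of_nonneg_right hVle hℓ.le)) fun hn => ⟨?_, ?_⟩
    · simp only [mul_comm (f' _)] at h
      exact h
    · have h5 : fp F.A₀ F.P m a = 2 ^ (12 * K) * ((1 / 2) ^ (12 * K) * fp F.A₀ F.P m a) := by
        rw [← mul_assoc, ← mul_pow]
        norm_num
      calc fp F.A₀ F.P m a * ℓ = 2 ^ (12 * K) * ((1 / 2) ^ (12 * K) * fp F.A₀ F.P m a) * ℓ := by rw [← h5]
        _ ≤ 2 ^ (12 * K) * fp F.A₀ F.P m' a * ℓ :=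
          mul_le_mul_of_nonneg_right (mul_le_mul_of_nonneg_left hn.le (by positivity)) hℓ.le
        _ = 2 ^ (12 * K) * (fp F.A₀ F.P m' a * ℓ) := by ring
        _ ≤ 2 ^ (12 * K) * (2 * (1 / 2) ^ (12 * K) * 2 ^ (K ^ (2 * κ + 1))) := mul_le_mul_of_nonneg_left htest2 (by positivity)
        _ = 2 * 2 ^ (K ^ (2 * κ + 1)) * (2 ^ (12 * K) * (1 / 2) ^ (12 * K)) := by ring
        _ = 2 * 2 ^ (K ^ (2 * κ + 1)) := by rw [← mul_pow]; norm_num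
    · refine le_trans ?_ htest
      exact mul_le_mul_of_nonneg_left (pow_le_pow_right₀ (by norm_num) (by omega)) hQ1.le

end

end Pool.Agent.Helper68.LD5
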